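import Pool.Agent.TH372.Pet.Props
import Pool.Agent.W829.CC.Main

set_option autoImplicit false

/-!
Below every graph without cut-edges there is an infinite strictly descending sequence of graphs
without cut-edges in the cycle-continuous order, with an explicit bound for the sizes.
-/

namespace Pool.Agent.Y413

open Finset Pool.Agent.H160R2.CC Pool.Agent.H160R2.CC.MGraph Pool.Agent.W829.CC
  Pool.Agent.TH372.Pet

lemma succ_trans {A B C : MGraph} (h1 : Succ A B) (h2 : Succ B C) : Succ A C := by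
  obtain ⟨f, hf⟩ := succ_iff.1 h1
  obtain ⟨g, hg⟩ := succ_iff.1 h2
  exact succ_iff.2 ⟨g ∘ f, CC.comp hg hf⟩

/-- a graph that does not map to `H`, with few edges -/
lemma exists_small (H : MGraph) (hH : ¬ H.HasCutEdge) :
    ∃ G : MGraph, ¬ G.HasCutEdge ∧ Fintype.card G.E ≤ max 168 (2 * Fintype.card H.E) ∧
      ¬ Succ G H := by
  by_cases h : Equivalent H petersen
  · refine ⟨ceG, no_cutEdge, ?_, fun h1 => not_succ (succ_trans h1 h.1)⟩
    have : Fintype.card ceG.E = 168 := Fintype.card_fin 168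
    rw [this]
    exact le_max_left _ _
  · obtain ⟨G, h1, h2, h3⟩ := small_witness H hH h
    refine ⟨G, h1, h2.trans ?_, h3⟩
    exact max_le_max (by norm_num) le_rfl

end Pool.Agent.Y413

namespace Pool.Agent.Y413

open Finset Pool.Agent.H160R2.CC Pool.Agent.H160R2.CC.MGraph Pool.Agent.W829.CC
  Pool.Agent.TH372.Pet

lemma minimal_iff (G : MGraph) : G.IsMinimal ↔ G.HasCutEdge := by
  constructor
  · intro h
    by_contra hc
    exact minimal_not_bridgeless h (bridgeless_of_not_hasCutEdge hc)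
  · intro h H hGH
    have hb : ¬ G.Bridgeless := fun hb => (hasCutEdge_iff.2 hb) h
    unfold Bridgeless at hb
    push Not at hb
    obtain ⟨e, he⟩ := hb
    refine ⟨hGH, ?_⟩
    obtain ⟨f, hf⟩ := succ_iff.1 hGH
    refine succ_iff.2 ⟨fun _ => e, fun φ hφ => ?_⟩
    have : φ e = 0 := by
      rcases z2 (φ e) with h | h
      · exact h
      · exact absurd h (he φ hφ)
    have h2 : φ ∘ (fun _ : H.E => e) = fun _ => 0 := by
      funext x; exact this
    rw [h2]
    exact Flow.zero H

lemma step (A : MGraph) (hA : ¬ A.IsMinimal) : ∃ B : MGraph, ¬ B.IsMinimal ∧ Succ A B ∧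
    ¬ Succ B A ∧ Fintype.card B.E ≤ Fintype.card A.E + max 168 (2 * Fintype.card A.E) := by
  have hc : ¬ A.HasCutEdge := fun h => hA ((minimal_iff A).2 h)
  obtain ⟨G, h1, h2, h3⟩ := exists_small A hc
  refine ⟨dsum A G, fun h => ?_, succ_iff.2 ⟨_, dsum_inl A G⟩, fun h => h3 ?_, ?_⟩
  · exact (hasCutEdge_iff.2 (dsum_bridgeless (hasCutEdge_iff.1 hc) (hasCutEdge_iff.1 h1)))
      ((minimal_iff _).1 h)
  · exact succ_trans (succ_iff.2 ⟨_, dsum_inr A G⟩) h
  · have : Fintype.card (dsum A G).E = Fintype.card A.E + Fintype.card G.E := Fintype.card_sum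
    rw [this]
    exact Nat.add_le_add_left h2 _

theorem descending (A : MGraph) (hA : ¬ A.IsMinimal) : ∃ x : ℕ → MGraph, x 0 = A ∧ ∀ n,
    ¬ (x n).IsMinimal ∧ Succ (x n) (x (n + 1)) ∧ ¬ Succ (x (n + 1)) (x n) ∧
    Fintype.card (x (n + 1)).E ≤ Fintype.card (x n).E + max 168 (2 * Fintype.card (x n).E) := by
  choose! nx h1 h2 h3 h4 using step
  let y : ℕ → MGraph := fun n => Nat.rec A (fun _ s => nx s) n
  have hy : ∀ n, ¬ (y n).IsMinimal := by
    intro n
    induction n with
    | zero => exact hA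
    | succ n ih => exact h1 _ ih
  exact ⟨y, rfl, fun n => ⟨hy n, h2 _ (hy n), h3 _ (hy n), h4 _ (hy n)⟩⟩

end Pool.Agent.Y413
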